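import Pool.Agent.helper64.D2.SpecC

set_option autoImplicit false

open Filter Topology
open scoped commutatorElement

namespace Pool.Agent.helper64.D2

theorem LOW_lip (f : ℝ → ℝ) (a : ℝ) (hf : Differentiable ℝ f) (hb : ∀ x, |deriv f x| ≤ a) (x y : ℝ) :
    |f x - f y| ≤ a * |x - y| := by
  have := Convex.norm_image_sub_le_of_norm_deriv_le (s := Set.univ) (f := f) (C := a) (x := y) (y := x)
    (fun z _ => hf z) (fun z _ => by rw [Real.norm_eq_abs]; exact hb z) convex_univ (Set.mem_univ _) (Set.mem_univ _)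
  simpa [Real.norm_eq_abs] using this

theorem LOW_diff (f : ℝ → ℝ) (hf : ContDiff ℝ 2 f) : Differentiable ℝ f ∧ Differentiable ℝ (deriv f) ∧ Continuous (d2 f) := by
  have h1 : ContDiff ℝ 1 (deriv f) := by
    have h := hf
    rw [show (2 : WithTop ℕ∞) = 1 + 1 by norm_num, contDiff_succ_iff_deriv] at h
    exact h.2.2
  refine ⟨hf.differentiable (by norm_num), h1.differentiable (by norm_num), ?_⟩
  exact h1.continuous_deriv (by norm_num)

theorem LOW_comp (E D1 : ℝ → ℝ) (hE : ContDiff ℝ 2 E) (hD : ContDiff ℝ 2 D1) :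
    ContDiff ℝ 2 (fun x => E x + D1 (x + E x)) ∧
    ∀ x, d2 (fun x => E x + D1 (x + E x)) x
      = d2 E x + d2 D1 (x + E x) * (1 + deriv E x) ^ 2 + deriv D1 (x + E x) * d2 E x := by
  obtain ⟨hE1, hE2, _⟩ := LOW_diff E hE
  obtain ⟨hD1, hD2, _⟩ := LOW_diff D1 hD
  refine ⟨hE.add (hD.comp (contDiff_id.add hE)), ?_⟩
  have h0 : ∀ x, HasDerivAt (fun x => x + E x) (1 + deriv E x) x := fun x =>
    (hasDerivAt_id x).add (hE1 x).hasDerivAt
  have h1 : deriv (fun x => E x + D1 (x + E x)) = fun x => deriv E x + deriv D1 (x + E x) * (1 + deriv E x) := by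
    funext x
    have h2 : HasDerivAt (fun x => D1 (x + E x)) (deriv D1 (x + E x) * (1 + deriv E x)) x :=
      HasDerivAt.comp (h₂ := D1) (h := fun x => x + E x) x (hD1 (x + E x)).hasDerivAt (h0 x)
    exact ((hE1 x).hasDerivAt.add h2).deriv
  intro x
  unfold d2
  rw [h1]
  have h2 : HasDerivAt (fun x => deriv D1 (x + E x)) (deriv (deriv D1) (x + E x) * (1 + deriv E x)) x :=
    HasDerivAt.comp (h₂ := deriv D1) (h := fun x => x + E x) x (hD2 (x + E x)).hasDerivAt (h0 x)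
  have h3 : HasDerivAt (fun x => 1 + deriv E x) (deriv (deriv E) x) x :=
    (hE2 x).hasDerivAt.const_add 1
  have h4 := ((hE2 x).hasDerivAt.add (h2.mul h3)).deriv
  rw [show (fun x => deriv E x + deriv D1 (x + E x) * (1 + deriv E x))
    = (deriv E + (fun x => deriv D1 (x + E x)) * fun x => 1 + deriv E x) from rfl, h4]
  ring

theorem LOW_kap (κ : ℝ → ℝ) (hκ : ContDiff ℝ 5 κ) (hs : ∀ x, x ∉ Set.Icc (42 / 100 : ℝ) (48 / 100) → κ x = 0)
    (hi : (∫ x, κ x) = 1) :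
    ContDiff ℝ 2 (fun y => κ y - y * deriv κ y) ∧
    (∀ x, x ∉ Set.Icc (42 / 100 : ℝ) (48 / 100) → (fun y => κ y - y * deriv κ y) x = 0) ∧
    (∫ y in (0 : ℝ)..1, (fun y => κ y - y * deriv κ y) y) = 2 ∧
    ∃ K : ℝ, 0 ≤ K ∧ (∀ x, |d2 (fun y => κ y - y * deriv κ y) x| ≤ K) ∧
      ∀ x y, |d2 (fun y => κ y - y * deriv κ y) x - d2 (fun y => κ y - y * deriv κ y) y| ≤ K * |x - y| := by
  have hd : ContDiff ℝ 4 (deriv κ) := by
    have h := hκ
    rw [show (5 : WithTop ℕ∞) = 4 + 1 by norm_num, contDiff_succ_iff_deriv] at h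
    exact h.2.2
  have hd0 : ∀ x, x ∉ Set.Icc (42 / 100 : ℝ) (48 / 100) → deriv κ x = 0 := by
    intro x hx
    have h1 : κ =ᶠ[𝓝 x] fun _ => (0 : ℝ) := by
      filter_upwards [isClosed_Icc.isOpen_compl.mem_nhds hx] with y hy using hs y hy
    rw [h1.deriv_eq]; simp
  have h4 : ContDiff ℝ 4 (fun y => κ y - y * deriv κ y) :=
    (hκ.of_le (by norm_num)).sub (contDiff_id.mul hd)
  have hz : ∀ x, x ∉ Set.Icc (42 / 100 : ℝ) (48 / 100) → (fun y => κ y - y * deriv κ y) x = 0 := by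
    intro x hx
    simp only [hs x hx, hd0 x hx]; ring
  have h3 : ContDiff ℝ 3 (deriv (fun y => κ y - y * deriv κ y)) := by
    have h := h4
    rw [show (4 : WithTop ℕ∞) = 3 + 1 by norm_num, contDiff_succ_iff_deriv] at h
    exact h.2.2
  have h2 : ContDiff ℝ 2 (d2 (fun y => κ y - y * deriv κ y)) := by
    have h := h3
    rw [show (3 : WithTop ℕ∞) = 2 + 1 by norm_num, contDiff_succ_iff_deriv] at h
    exact h.2.2
  have hc : HasCompactSupport (fun y => κ y - y * deriv κ y) := HasCompactSupport.intro isCompact_Icc hz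
  have hc2 : HasCompactSupport (d2 (fun y => κ y - y * deriv κ y)) := hc.deriv.deriv
  obtain ⟨K1, hK1⟩ := hc2.exists_bound_of_continuous h2.continuous
  obtain ⟨K2, hK2⟩ := hc2.deriv.exists_bound_of_continuous (h2.continuous_deriv (by norm_num))
  refine ⟨h4.of_le (by norm_num), hz, ?_, max K1 K2, ?_, ?_, ?_⟩
  · have hint : (∫ y in (0 : ℝ)..1, κ y) = 1 := by
      rw [intervalIntegral.integral_eq_integral_of_support_subset, hi]
      intro x hx
      by_contra hcon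
      apply hx
      apply hs
      intro hx2
      exact hcon ⟨by linarith [hx2.1], by linarith [hx2.2]⟩
    have hF : ∀ y : ℝ, HasDerivAt (fun y => 2 * (∫ t in (0 : ℝ)..y, κ t) - y * κ y) (κ y - y * deriv κ y) y := by
      intro y
      have e1 : HasDerivAt (fun u => ∫ t in (0 : ℝ)..u, κ t) (κ y) y :=
        (hκ.continuous.integral_hasStrictDerivAt 0 y).hasDerivAt
      have e2 : HasDerivAt (fun y => y * κ y) (1 * κ y + y * deriv κ y) y :=
        (hasDerivAt_id y).mul ((hκ.differentiable (by norm_num)) y).hasDerivAt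
      have e3 := (e1.const_mul 2).sub e2
      have e4 : 2 * κ y - (1 * κ y + y * deriv κ y) = κ y - y * deriv κ y := by ring
      rw [← e4]; exact e3
    rw [intervalIntegral.integral_eq_sub_of_hasDerivAt (fun y _ => hF y)
      (h4.continuous.intervalIntegrable _ _)]
    rw [hint, intervalIntegral.integral_same, hs 1 (by rw [Set.mem_Icc]; norm_num)]
    norm_num
  · exact le_trans ((norm_nonneg _).trans (hK1 0)) (le_max_left _ _)
  · intro x
    exact le_trans (hK1 x) (le_max_left _ _)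
  · intro x y
    have := LOW_lip _ K2 (h2.differentiable (by norm_num)) (fun z => hK2 z) x y
    exact this.trans (mul_le_mul_of_nonneg_right (le_max_right _ _) (abs_nonneg _))

theorem LOW_Y (X κ1 : ℝ → ℝ) (p q : ℝ) (hX : Continuous X) (hκ : Continuous κ1)
    (hXs : ∀ x, x ∉ Set.Icc p q → X x = 0) (hκs : ∀ x, x ∉ Set.Icc (42 / 100 : ℝ) (48 / 100) → κ1 x = 0)
    (hκi : (∫ y in (0 : ℝ)..1, κ1 y) = 2) (hp : 1 / 4 ≤ p) (hp2 : p ≤ 4 / 10) (hq : 1 / 2 ≤ q) (hq2 : q < 3 / 4)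
    (β : ℝ) (hβ : (∫ y in (0 : ℝ)..1, X y) = 2 * β) :
    ∃ Y : ℝ → ℝ, (∀ x, HasDerivAt Y (X x - β * κ1 x) x) ∧ ∀ x, x ∉ Set.Icc p q → Y x = 0 := by
  have hc : Continuous (fun x => X x - β * κ1 x) := hX.sub (continuous_const.mul hκ)
  have hz : ∀ x, x ∉ Set.Icc p q → X x - β * κ1 x = 0 := by
    intro x hx
    rw [hXs x hx, hκs x (fun h => hx ⟨by linarith [h.1], by linarith [h.2]⟩)]; ring
  refine ⟨fun x => ∫ t in (0 : ℝ)..x, (X t - β * κ1 t), fun x => (hc.integral_hasStrictDerivAt 0 x).hasDerivAt, ?_⟩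
  intro x hx
  have h01 : (∫ t in (0 : ℝ)..1, (X t - β * κ1 t)) = 0 := by
    have hk : Continuous (fun t => β * κ1 t) := continuous_const.mul hκ
    rw [intervalIntegral.integral_sub (hX.intervalIntegrable _ _) (hk.intervalIntegrable _ _),
      intervalIntegral.integral_const_mul, hκi, hβ]
    ring
  rcases lt_or_ge x p with h | h
  · show (∫ t in (0 : ℝ)..x, (X t - β * κ1 t)) = 0
    have : (∫ t in (0 : ℝ)..x, (X t - β * κ1 t)) = ∫ t in (0 : ℝ)..x, (0 : ℝ) := by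
      apply intervalIntegral.integral_congr
      intro t ht
      have ht2 : t < p := by
        rcases Set.mem_uIcc.1 ht with h1 | h1
        · linarith [h1.2]
        · linarith [h1.2]
      exact hz t (fun h3 => by linarith [h3.1])
    rw [this, intervalIntegral.integral_zero]
  · have hq3 : q < x := by
      by_contra hcon
      exact hx ⟨h, not_lt.1 hcon⟩
    show (∫ t in (0 : ℝ)..x, (X t - β * κ1 t)) = 0
    rw [← intervalIntegral.integral_add_adjacent_intervals (b := 1) (hc.intervalIntegrable _ _)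
      (hc.intervalIntegrable _ _), h01, zero_add]
    have : (∫ t in (1 : ℝ)..x, (X t - β * κ1 t)) = ∫ t in (1 : ℝ)..x, (0 : ℝ) := by
      apply intervalIntegral.integral_congr
      intro t ht
      have ht2 : q < t := by
        rcases Set.mem_uIcc.1 ht with h1 | h1
        · linarith [h1.1]
        · linarith [h1.1]
      exact hz t (fun h3 => by linarith [h3.2])
    rw [this, intervalIntegral.integral_zero]

theorem LOW_beta (X : ℝ → ℝ) (a : ℝ) (h : ∀ x, |X x| ≤ a) : |(∫ y in (0 : ℝ)..1, X y)| ≤ a := by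
  have := intervalIntegral.norm_integral_le_of_norm_le_const (a := (0 : ℝ)) (b := 1) (C := a) (f := X)
    (fun x _ => by rw [Real.norm_eq_abs]; exact h x)
  simpa [Real.norm_eq_abs] using this

/-- Bounds for the composition. -/
theorem LOW_bnd (E D1 : ℝ → ℝ) (hE : ContDiff ℝ 2 E) (hD : ContDiff ℝ 2 D1) (e a1 L1 : ℝ) (he1 : e ≤ 1) (hL1 : 0 ≤ L1)
    (E0 : ∀ x, |E x| ≤ e) (E1 : ∀ x, |deriv E x| ≤ e) (E2 : ∀ x, |d2 E x| ≤ e)
    (EL : ∀ x y, |d2 E x - d2 E y| ≤ e * |x - y|)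
    (F1 : ∀ x, |deriv D1 x| ≤ a1) (F2 : ∀ x, |d2 D1 x| ≤ a1) (FL : ∀ x y, |d2 D1 x - d2 D1 y| ≤ L1 * |x - y|) :
    (∀ x, |d2 E x + d2 D1 (x + E x) * (1 + deriv E x) ^ 2 + deriv D1 (x + E x) * d2 E x| ≤ e + 5 * a1) ∧
    (∀ x, |d2 D1 (x + E x) * (1 + deriv E x) ^ 2 - d2 D1 x| ≤ 4 * L1 * e + 3 * a1 * e) ∧
    (∀ x, |deriv D1 (x + E x) * d2 E x| ≤ a1 * e) ∧
    ∀ x y, |(d2 E x + d2 D1 (x + E x) * (1 + deriv E x) ^ 2 + deriv D1 (x + E x) * d2 E x)
      - (d2 E y + d2 D1 (y + E y) * (1 + deriv E y) ^ 2 + deriv D1 (y + E y) * d2 E y)|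
      ≤ (e + 8 * L1 + 7 * a1) * |x - y| := by
  obtain ⟨hE1, hE2, _⟩ := LOW_diff E hE
  obtain ⟨hD1, hD2, _⟩ := LOW_diff D1 hD
  have e0 : 0 ≤ e := (abs_nonneg _).trans (E0 0)
  have a0 : 0 ≤ a1 := (abs_nonneg _).trans (F1 0)
  have hsq : ∀ x, 0 ≤ (1 + deriv E x) ^ 2 ∧ (1 + deriv E x) ^ 2 ≤ 4 ∧ |(1 + deriv E x) ^ 2 - 1| ≤ 3 * e := by
    intro x
    have h1 := abs_le.1 (E1 x)
    refine ⟨sq_nonneg _, by nlinarith, ?_⟩
    have h2 : (1 + deriv E x) ^ 2 - 1 = deriv E x * (2 + deriv E x) := by ring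
    rw [h2, abs_mul, mul_comm]
    apply mul_le_mul _ (E1 x) (abs_nonneg _) (by norm_num)
    rw [abs_le]; constructor <;> linarith
  have hb3 : ∀ x, |deriv D1 (x + E x) * d2 E x| ≤ a1 * e := by
    intro x
    rw [abs_mul]
    exact mul_le_mul (F1 _) (E2 x) (abs_nonneg _) a0
  refine ⟨?_, ?_, hb3, ?_⟩
  · intro x
    obtain ⟨h1, h2, _⟩ := hsq x
    have h4 : |d2 D1 (x + E x) * (1 + deriv E x) ^ 2| ≤ a1 * 4 := by
      rw [abs_mul, abs_of_nonneg h1]
      exact mul_le_mul (F2 _) h2 h1 a0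
    have h5 := hb3 x
    have h6 : a1 * e ≤ a1 * 1 := mul_le_mul_of_nonneg_left he1 a0
    have h7 := E2 x
    have h8 := abs_add_le (d2 E x + d2 D1 (x + E x) * (1 + deriv E x) ^ 2) (deriv D1 (x + E x) * d2 E x)
    have h9 := abs_add_le (d2 E x) (d2 D1 (x + E x) * (1 + deriv E x) ^ 2)
    linarith
  · intro x
    obtain ⟨h1, h2, h3⟩ := hsq x
    have h4 : d2 D1 (x + E x) * (1 + deriv E x) ^ 2 - d2 D1 x
      = (d2 D1 (x + E x) - d2 D1 x) * (1 + deriv E x) ^ 2 + d2 D1 x * ((1 + deriv E x) ^ 2 - 1) := by ring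
    rw [h4]
    have h5 : |(d2 D1 (x + E x) - d2 D1 x) * (1 + deriv E x) ^ 2| ≤ (L1 * e) * 4 := by
      rw [abs_mul, abs_of_nonneg h1]
      apply mul_le_mul _ h2 h1 (by positivity)
      refine (FL _ _).trans ?_
      apply mul_le_mul_of_nonneg_left _ hL1
      have : x + E x - x = E x := by ring
      rw [this]; exact E0 x
    have h6 : |d2 D1 x * ((1 + deriv E x) ^ 2 - 1)| ≤ a1 * (3 * e) := by
      rw [abs_mul]
      exact mul_le_mul (F2 _) h3 (abs_nonneg _) a0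
    have h7 := abs_add_le ((d2 D1 (x + E x) - d2 D1 x) * (1 + deriv E x) ^ 2) (d2 D1 x * ((1 + deriv E x) ^ 2 - 1))
    linarith
  · intro x y
    have hxy := abs_nonneg (x - y)
    obtain ⟨h1, h2, _⟩ := hsq x
    have hh : |(x + E x) - (y + E y)| ≤ 2 * |x - y| := by
      have g1 := LOW_lip E e hE1 E1 x y
      have g2 : (x + E x) - (y + E y) = (x - y) + (E x - E y) := by ring
      rw [g2]
      have g3 := abs_add_le (x - y) (E x - E y)
      have g4 : e * |x - y| ≤ 1 * |x - y| := mul_le_mul_of_nonneg_right he1 hxy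
      linarith
    have hE' := LOW_lip (deriv E) e hE2 E2 x y
    have hD' : |deriv D1 (x + E x) - deriv D1 (y + E y)| ≤ a1 * (2 * |x - y|) :=
      (LOW_lip (deriv D1) a1 hD2 F2 _ _).trans (mul_le_mul_of_nonneg_left hh a0)
    have hD'' : |d2 D1 (x + E x) - d2 D1 (y + E y)| ≤ L1 * (2 * |x - y|) :=
      (FL _ _).trans (mul_le_mul_of_nonneg_left hh hL1)
    have key : (d2 E x + d2 D1 (x + E x) * (1 + deriv E x) ^ 2 + deriv D1 (x + E x) * d2 E x)
      - (d2 E y + d2 D1 (y + E y) * (1 + deriv E y) ^ 2 + deriv D1 (y + E y) * d2 E y)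
      = (d2 E x - d2 E y) + (d2 D1 (x + E x) - d2 D1 (y + E y)) * (1 + deriv E x) ^ 2
        + d2 D1 (y + E y) * ((deriv E x - deriv E y) * (2 + deriv E x + deriv E y))
        + (deriv D1 (x + E x) - deriv D1 (y + E y)) * d2 E x
        + deriv D1 (y + E y) * (d2 E x - d2 E y) := by ring
    rw [key]
    have t1 : |d2 E x - d2 E y| ≤ e * |x - y| := EL x y
    have t2 : |(d2 D1 (x + E x) - d2 D1 (y + E y)) * (1 + deriv E x) ^ 2| ≤ (L1 * (2 * |x - y|)) * 4 := by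
      rw [abs_mul, abs_of_nonneg h1]
      exact mul_le_mul hD'' h2 h1 (by positivity)
    have t3 : |d2 D1 (y + E y) * ((deriv E x - deriv E y) * (2 + deriv E x + deriv E y))| ≤ a1 * ((1 * |x - y|) * 4) := by
      rw [abs_mul, abs_mul]
      apply mul_le_mul (F2 _) _ (by positivity) a0
      apply mul_le_mul _ _ (abs_nonneg _) (by positivity)
      · exact hE'.trans (mul_le_mul_of_nonneg_right he1 hxy)
      · have g1 := abs_le.1 (E1 x)
        have g2 := abs_le.1 (E1 y)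
        rw [abs_le]; constructor <;> linarith
    have t4 : |(deriv D1 (x + E x) - deriv D1 (y + E y)) * d2 E x| ≤ (a1 * (2 * |x - y|)) * 1 := by
      rw [abs_mul]
      exact mul_le_mul hD' ((E2 x).trans he1) (abs_nonneg _) (by positivity)
    have t5 : |deriv D1 (y + E y) * (d2 E x - d2 E y)| ≤ a1 * (1 * |x - y|) := by
      rw [abs_mul]
      apply mul_le_mul (F1 _) _ (abs_nonneg _) a0
      exact t1.trans (mul_le_mul_of_nonneg_right he1 hxy)
    have s1 := abs_add_le ((d2 E x - d2 E y) + (d2 D1 (x + E x) - d2 D1 (y + E y)) * (1 + deriv E x) ^ 2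
        + d2 D1 (y + E y) * ((deriv E x - deriv E y) * (2 + deriv E x + deriv E y))
        + (deriv D1 (x + E x) - deriv D1 (y + E y)) * d2 E x) (deriv D1 (y + E y) * (d2 E x - d2 E y))
    have s2 := abs_add_le ((d2 E x - d2 E y) + (d2 D1 (x + E x) - d2 D1 (y + E y)) * (1 + deriv E x) ^ 2
        + d2 D1 (y + E y) * ((deriv E x - deriv E y) * (2 + deriv E x + deriv E y)))
        ((deriv D1 (x + E x) - deriv D1 (y + E y)) * d2 E x)
    have s3 := abs_add_le ((d2 E x - d2 E y) + (d2 D1 (x + E x) - d2 D1 (y + E y)) * (1 + deriv E x) ^ 2)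
        (d2 D1 (y + E y) * ((deriv E x - deriv E y) * (2 + deriv E x + deriv E y)))
    have s4 := abs_add_le (d2 E x - d2 E y) ((d2 D1 (x + E x) - d2 D1 (y + E y)) * (1 + deriv E x) ^ 2)
    have fin : (e + 8 * L1 + 7 * a1) * |x - y| = e * |x - y| + (L1 * (2 * |x - y|)) * 4 + a1 * ((1 * |x - y|) * 4)
      + (a1 * (2 * |x - y|)) * 1 + a1 * (1 * |x - y|) := by ring
    rw [fin]
    linarith

theorem LOW (hLW1 : LW1_stmt) (hLW2 : LW2_stmt) (hBAS : BAS_stmt) : LOW_stmt := by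
  obtain ⟨κ, hκ, hκs, hκi, hLW2⟩ := hLW2
  obtain ⟨k1, k2, k3, K, K0, k4, k5⟩ := LOW_kap κ hκ hκs hκi
  generalize hκ1 : (fun y => κ y - y * deriv κ y) = κ1 at *
  intro A hA
  obtain ⟨C2, hC2, hLW2⟩ := hLW2 A hA
  have hA' : 1 ≤ A * (1 + K) := by nlinarith
  obtain ⟨C1, hC1, hLW1⟩ := hLW1 (A * (1 + K)) hA'
  have hBC : 0 ≤ C1 * (A * (1 + K)) := by positivity
  refine ⟨C2 + 20 * C1 * (1 + A * (1 + K)), by nlinarith, ?_⟩
  intro X p q θ M hX hXs hX2 hXL hp hp2 hq hq2 hθ hCθ hM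
  set A' : ℝ := A * (1 + K) with hA'def
  set C : ℝ := C2 + 20 * C1 * (1 + A') with hCdef
  have hC2C : C2 ≤ C := by nlinarith
  have hC1C : C1 ≤ C := by nlinarith
  have hC2θ : C2 * θ ≤ 1 := (mul_le_mul_of_nonneg_right hC2C hθ.le).trans hCθ
  have hC1θ : C1 * θ ≤ 1 := (mul_le_mul_of_nonneg_right hC1C hθ.le).trans hCθ
  have hθ1 : θ ≤ 1 := by nlinarith
  have hpq : p ≤ q := by linarith
  have hAθ : 0 ≤ A * θ ^ 2 := by positivity
  obtain ⟨_, b2, _, _⟩ := hBAS X p q (A * θ ^ 2) hX hXs hX2 hpq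
  have hXb : ∀ x, |X x| ≤ A * θ ^ 2 := by
    intro x
    refine (b2 x).trans ?_
    have : (q - p) ^ 2 ≤ 1 := by nlinarith
    nlinarith
  have hβb := LOW_beta X _ hXb
  obtain ⟨β, hβ⟩ : ∃ β : ℝ, (∫ y in (0 : ℝ)..1, X y) = 2 * β := ⟨(∫ y in (0 : ℝ)..1, X y) / 2, by ring⟩
  rw [hβ, abs_mul] at hβb
  have hβb2 : |β| ≤ A * θ ^ 2 := by
    have : |(2 : ℝ)| = 2 := by norm_num
    rw [this] at hβb
    nlinarith [abs_nonneg β]
  obtain ⟨Y, hY, hYs⟩ := LOW_Y X κ1 p q hX.continuous k1.continuous hXs k2 k3 hp hp2 hq (by linarith) β hβ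
  have hXi : ContDiff ℝ 2 (fun x => X x - β * κ1 x) := hX.sub (contDiff_const.mul k1)
  have hXi2 : ∀ x, d2 (fun x => X x - β * κ1 x) x = d2 X x - β * d2 κ1 x := by
    obtain ⟨x1, x2, _⟩ := LOW_diff X hX
    obtain ⟨y1, y2, _⟩ := LOW_diff κ1 k1
    have h1 : deriv (fun x => X x - β * κ1 x) = fun x => deriv X x - β * deriv κ1 x := by
      funext x
      exact ((x1 x).hasDerivAt.sub ((y1 x).hasDerivAt.const_mul β)).deriv
    intro x
    unfold d2
    rw [h1]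
    exact ((x2 x).hasDerivAt.sub ((y2 x).hasDerivAt.const_mul β)).deriv
  have hβK : |β| * K ≤ A * θ ^ 2 * K := mul_le_mul_of_nonneg_right hβb2 K0
  have hM' : 0 ≤ M + A' * θ ^ 2 := by positivity
  obtain ⟨T, b, D1, r1, ⟨s1, s2, s3, s4⟩, z1, z2, d1⟩ := hLW1 Y (fun x => X x - β * κ1 x) p q θ (M + A' * θ ^ 2) hXi hY hYs
    (by
      intro x
      rw [hXi2]
      have h1 : |d2 X x - β * d2 κ1 x| ≤ |d2 X x| + |β * d2 κ1 x| := abs_sub _ _
      have h2 : |β * d2 κ1 x| ≤ |β| * K := by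
        rw [abs_mul]; exact mul_le_mul_of_nonneg_left (k4 x) (abs_nonneg _)
      have h3 := hX2 x
      have h4 : A' * θ ^ 2 = A * θ ^ 2 + A * θ ^ 2 * K := by rw [hA'def]; ring
      rw [h4]
      linarith)
    (by
      intro x y
      rw [hXi2, hXi2]
      have h0 : d2 X x - β * d2 κ1 x - (d2 X y - β * d2 κ1 y) = (d2 X x - d2 X y) - β * (d2 κ1 x - d2 κ1 y) := by ring
      rw [h0]
      have h1 : |(d2 X x - d2 X y) - β * (d2 κ1 x - d2 κ1 y)| ≤ |d2 X x - d2 X y| + |β * (d2 κ1 x - d2 κ1 y)| := abs_sub _ _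
      have h2 : |β * (d2 κ1 x - d2 κ1 y)| ≤ |β| * (K * |x - y|) := by
        rw [abs_mul]; exact mul_le_mul_of_nonneg_left (k5 x y) (abs_nonneg _)
      have h3 := hXL x y
      have h5 : |β| * K * |x - y| ≤ A * θ ^ 2 * K * |x - y| := mul_le_mul_of_nonneg_right hβK (abs_nonneg _)
      have h6 : 0 ≤ A * θ ^ 2 * |x - y| := mul_nonneg hAθ (abs_nonneg _)
      have h4 : (M + A' * θ ^ 2) * |x - y| = M * |x - y| + A * θ ^ 2 * |x - y| + A * θ ^ 2 * K * |x - y| := by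
        rw [hA'def]; ring
      rw [h4]
      linarith)
    hp hpq hq2 hθ hC1θ hM'
  obtain ⟨S, b', E, r2, ⟨t1, t2, t3, t4⟩, z3, z4, d2'⟩ := hLW2 β θ hθ hC2θ hβb2
  set e : ℝ := C2 * θ ^ 2 with he
  set a1 : ℝ := C1 * θ ^ 2 with ha1
  set L1 : ℝ := C1 * (M + A' * θ ^ 2 + θ ^ 2) with hL1
  have e0 : 0 ≤ e := by positivity
  have a0 : 0 ≤ a1 := by positivity
  have L0 : 0 ≤ L1 := by positivity
  have heθ : e ≤ θ := by
    have : e = (C2 * θ) * θ := by rw [he]; ring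
    rw [this]; nlinarith
  have he1 : e ≤ 1 := heθ.trans hθ1
  obtain ⟨u1, u2, _, _⟩ := hBAS E (4 / 10) (1 / 2) e t1 t2 t3 (by norm_num)
  obtain ⟨v1, _, _, _⟩ := hBAS D1 p (q + θ) a1 s1 s2 s3 (by linarith)
  have E1 : ∀ x, |deriv E x| ≤ e := fun x => (u1 x).trans (by nlinarith)
  have E0 : ∀ x, |E x| ≤ e := fun x => (u2 x).trans (by nlinarith)
  have F1 : ∀ x, |deriv D1 x| ≤ a1 := fun x => (v1 x).trans (by nlinarith)
  obtain ⟨c1, c2⟩ := LOW_comp E D1 t1 s1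
  obtain ⟨w1, w2, w3, w4⟩ := LOW_bnd E D1 t1 s1 e a1 L1 he1 L0 E0 E1 t3 t4 F1 s3 s4
  have hMθ : 0 ≤ M + θ ^ 2 := by positivity
  have hL1b : L1 ≤ C1 * (1 + A') * (M + θ ^ 2) := by
    rw [hL1]
    have h1 : C1 * (1 + A') * (M + θ ^ 2) = C1 * (M + A' * θ ^ 2 + θ ^ 2) + C1 * A' * M := by ring
    have h2 : 0 ≤ C1 * A' * M := by positivity
    linarith
  have ha1b : a1 ≤ C1 * (1 + A') * (M + θ ^ 2) := by
    rw [ha1]
    have h1 : C1 * (1 + A') * (M + θ ^ 2) = C1 * θ ^ 2 + (C1 * M + C1 * A' * (M + θ ^ 2)) := by ring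
    have h2 : 0 ≤ C1 * M + C1 * A' * (M + θ ^ 2) := by positivity
    linarith
  have heb : e ≤ C2 * (M + θ ^ 2) := by
    rw [he]
    have h2 : 0 ≤ C2 * M := by positivity
    have h1 : C2 * (M + θ ^ 2) = C2 * θ ^ 2 + C2 * M := by ring
    linarith
  have hw0 : 0 ≤ C1 * (1 + A') * (M + θ ^ 2) := by positivity
  have hCexp : C * (M + θ ^ 2) = C2 * (M + θ ^ 2) + 20 * (C1 * (1 + A') * (M + θ ^ 2)) := by rw [hCdef]; ring
  refine ⟨T, b, S, b', fun x => E x + D1 (x + E x), ?_, ⟨c1, ?_, ?_, ?_⟩, ?_, ?_, ?_, ?_, ?_⟩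
  · intro x
    rw [ev_mul, r2 x, r1 (x + E x)]
    ring
  · intro x hx
    have h1 : E x = 0 := t2 x (fun h => hx ⟨by linarith [h.1], by linarith [h.2]⟩)
    show E x + D1 (x + E x) = 0
    rw [h1, add_zero, s2 x hx, add_zero]
  · intro x
    rw [c2]
    refine (w1 x).trans ?_
    have h1 : C * θ ^ 2 = e + 20 * (1 + A') * a1 := by rw [hCdef, he, ha1]; ring
    have h2 : 0 ≤ A' * a1 := by positivity
    have h3 : 20 * (1 + A') * a1 = 20 * a1 + 20 * (A' * a1) := by ring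
    rw [h1, h3]
    linarith
  · intro x y
    rw [c2, c2]
    refine (w4 x y).trans (mul_le_mul_of_nonneg_right ?_ (abs_nonneg _))
    rw [hCexp]
    linarith
  · intro x; exact (z1 x).trans (mul_le_mul_of_nonneg_right hC1C hθ.le)
  · intro x; exact (z2 x).trans (mul_le_mul_of_nonneg_right hC1C hθ.le)
  · intro x; exact (z3 x).trans (mul_le_mul_of_nonneg_right hC2C hθ.le)
  · intro x; exact (z4 x).trans (mul_le_mul_of_nonneg_right hC2C hθ.le)
  · intro x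
    rw [c2]
    have key : d2 E x + d2 D1 (x + E x) * (1 + deriv E x) ^ 2 + deriv D1 (x + E x) * d2 E x - d2 X x
      = (d2 E x - β * d2 κ1 x) + (d2 D1 x - d2 (fun x => X x - β * κ1 x) x)
        + (d2 D1 (x + E x) * (1 + deriv E x) ^ 2 - d2 D1 x) + deriv D1 (x + E x) * d2 E x := by
      rw [hXi2]; ring
    rw [key]
    have q1 : |d2 E x - β * d2 κ1 x| ≤ C2 * θ ^ 3 := d2' x
    have q2 := d1 x
    have q3 := w2 x
    have q4 := w3 x
    have g1 := abs_add_le ((d2 E x - β * d2 κ1 x) + (d2 D1 x - d2 (fun x => X x - β * κ1 x) x)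
        + (d2 D1 (x + E x) * (1 + deriv E x) ^ 2 - d2 D1 x)) (deriv D1 (x + E x) * d2 E x)
    have g2 := abs_add_le ((d2 E x - β * d2 κ1 x) + (d2 D1 x - d2 (fun x => X x - β * κ1 x) x))
        (d2 D1 (x + E x) * (1 + deriv E x) ^ 2 - d2 D1 x)
    have g3 := abs_add_le (d2 E x - β * d2 κ1 x) (d2 D1 x - d2 (fun x => X x - β * κ1 x) x)
    have n1 : C2 * θ ^ 3 ≤ θ * (C2 * (M + θ ^ 2)) := by
      have h1 : θ * (C2 * (M + θ ^ 2)) = C2 * θ ^ 3 + θ * C2 * M := by ring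
      have h2 : 0 ≤ θ * C2 * M := by positivity
      linarith
    have n2 : C1 * θ * (M + A' * θ ^ 2 + θ ^ 2) ≤ θ * (C1 * (1 + A') * (M + θ ^ 2)) := by
      have h1 : C1 * θ * (M + A' * θ ^ 2 + θ ^ 2) = θ * L1 := by rw [hL1]; ring
      rw [h1]
      exact mul_le_mul_of_nonneg_left hL1b hθ.le
    have n3 : L1 * e ≤ θ * (C1 * (1 + A') * (M + θ ^ 2)) := by
      calc L1 * e ≤ (C1 * (1 + A') * (M + θ ^ 2)) * θ := mul_le_mul hL1b heθ e0 hw0
        _ = _ := by ring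
    have n4 : a1 * e ≤ θ * (C1 * (1 + A') * (M + θ ^ 2)) := by
      calc a1 * e ≤ (C1 * (1 + A') * (M + θ ^ 2)) * θ := mul_le_mul ha1b heθ e0 hw0
        _ = _ := by ring
    have n5 : C * θ * (M + θ ^ 2) = θ * (C2 * (M + θ ^ 2)) + 20 * (θ * (C1 * (1 + A') * (M + θ ^ 2))) := by
      rw [hCdef]; ring
    have n6 : 0 ≤ θ * (C1 * (1 + A') * (M + θ ^ 2)) := by positivity
    rw [n5]
    nlinarith

end Pool.Agent.helper64.D2
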